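import Mathlib
import Pool.Agent.Q3.BadA.Torus

/-!
# MP_39ae23_nt: no zero-one law for `Bad_A` under algebraic measures on cosets
-/

set_option autoImplicit false

namespace Pool.Agent.Results.MP_39ae23_nt.NoZeroOne

open Filter Topology MeasureTheory

/-- The point `A q` of the torus `𝕋ᵐ = (ℝ/ℤ)ᵐ`, for an integer vector `q`. -/
noncomputable def pt {m n : ℕ} (A : Matrix (Fin m) (Fin n) ℝ) (q : Fin n → ℤ) :
    Fin m → UnitAddCircle := fun i => ((∑ j, A i j * (q j : ℝ) : ℝ) : UnitAddCircle)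

/-- The set `Bad_A` of the `η` with `liminf ‖q‖^(n/m) ⟨A q - η⟩ > 0` as `‖q‖ → ∞`; all norms are sup
norms, and the norm of a point of `ℝ/ℤ` is its distance to `0`. -/
def Bad {m n : ℕ} (A : Matrix (Fin m) (Fin n) ℝ) : Set (Fin m → UnitAddCircle) :=
  {η | 0 < liminf (fun q : Fin n → ℤ => ((‖q‖ ^ ((n : ℝ) / m) * ‖pt A q - η‖ : ℝ) : EReal)) cofinite}

/-- Algebraic measures: `μ` is a probability measure supported on a coset `η₀ + H` of a closed
connected subgroup `H` and invariant under the translations by `H`. -/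
def IsAlgebraic {m : ℕ} (μ : Measure (Fin m → UnitAddCircle)) : Prop :=
  ∃ (H : AddSubgroup (Fin m → UnitAddCircle)) (η₀ : Fin m → UnitAddCircle),
    IsClosed (H : Set (Fin m → UnitAddCircle)) ∧ IsConnected (H : Set (Fin m → UnitAddCircle)) ∧
    IsProbabilityMeasure μ ∧ μ {v | v - η₀ ∉ H} = 0 ∧ ∀ h ∈ H, μ.map (fun v => h + v) = μ

/-- The zero-one law fails: there are a real `2 × 1` matrix `A` and an algebraic measure `μ` on `𝕋²`
with `0 < μ(Bad_A) < 1`. -/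
theorem result : ¬ (∀ (m n : ℕ), 1 ≤ m → 1 ≤ n → ∀ (A : Matrix (Fin m) (Fin n) ℝ)
    (μ : Measure (Fin m → UnitAddCircle)), IsAlgebraic μ → μ (Bad A) = 0 ∨ μ (Bad A) = 1) := by
  intro H
  obtain ⟨α, α₂, x, h1, h2, _⟩ := Q3.BadA.core
  have hpos : 0 < Q3.BadA.mu x (Bad !![α; α₂]) := by
    apply Q3.BadA.mu_bad_pos
    intro y hy
    obtain ⟨c, hc, Q, hQ⟩ := h1 y hy
    exact Q3.BadA.mem_bad α α₂ x y c hc Q hQ
  have hlt : Q3.BadA.mu x (Bad !![α; α₂]) < 1 := by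
    apply Q3.BadA.mu_bad_lt
    intro y hy
    exact Q3.BadA.not_mem_bad α α₂ x y (h2 y hy)
  have hmu : IsAlgebraic (Q3.BadA.mu x) :=
    ⟨Q3.BadA.incl.range, ![(x : UnitAddCircle), 0], Q3.BadA.range_closed, Q3.BadA.range_connected,
      Q3.BadA.mu_prob _, Q3.BadA.mu_supp _, Q3.BadA.mu_inv _⟩
  rcases H 2 1 (by norm_num) le_rfl !![α; α₂] (Q3.BadA.mu x) hmu with h | h
  · exact hpos.ne' h
  · exact hlt.ne h

end Pool.Agent.Results.MP_39ae23_nt.NoZeroOne
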